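import Pool.Agent.H53.GM.Targets2

/-!
# Iteration of the partite lemma over a list of faces
-/

set_option autoImplicit false
set_option linter.unusedVariables false

namespace Pool.Agent.H66.GM

open Pool.Agent.H68.BP Pool.Agent.H58.SF Pool.Agent.H53.GC Pool.Agent.H53.GR Pool.Agent.H53.GM
open Classical

theorem pf_ITR (hPL : Pool.Agent.H53.GM.T_PL) (hPLG : Pool.Agent.H53.GM.T_PLG) :
    Pool.Agent.H53.GM.T_ITR := by
  intro Q 𝒦 K N G hG WB Y _ _ B m hB hLG ls
  induction ls with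
  | nil =>
    intro _ P _ C hC hCL
    refine ⟨P, inferInstance, C, hC, hCL, fun χ => ⟨fun x => x, Hm.refl C, ?_⟩⟩
    intro p hp
    exact absurd hp (List.not_mem_nil)
  | cons p ls ih =>
    intro hls P _ C hC hCL
    obtain ⟨P1, hP1, C1, hC1, -, hχ1, hS1⟩ := hPL WB 𝒦 (K.ov B) P Y C p.1 p.2 hC
    have := hP1
    have hCL1 : LG G (m + 1) (C1.fg B) :=
      hPLG Q 𝒦 K N G hG WB P P1 B m C C1 p.1 p.2 hB hLG (hls p List.mem_cons_self) hC hCL hC1 hS1
    obtain ⟨P', hP', C', hC', hCL', hχ'⟩ :=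
      ih (fun q hq => hls q (List.mem_cons_of_mem _ hq)) P1 C1 hC1 hCL1
    refine ⟨P', hP', C', hC', hCL', fun χ => ?_⟩
    obtain ⟨φ2, hφ2, h2⟩ := hχ' χ
    obtain ⟨φ1, hφ1, h1⟩ := hχ1 (fun g => χ (g.image φ2))
    refine ⟨fun x => φ2 (φ1 x), hφ1.comp hφ2, ?_⟩
    have him : ∀ g : Finset P, g.image (fun x => φ2 (φ1 x)) = (g.image φ1).image φ2 := by
      intro g
      rw [Finset.image_image]
      rfl
    intro q hq g g' hg hg' e e'
    rw [him g, him g']
    rcases List.mem_cons.1 hq with rfl | hq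
    · exact h1 g g' hg hg' e e'
    · refine h2 q hq _ _ (hφ1 g q.2 hg).1 (hφ1 g' q.2 hg').1 ?_ ?_
      · rw [hφ1.image_pt hg, e]
      · rw [hφ1.image_pt hg', e']

end Pool.Agent.H66.GM
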